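import Pool.Agent.Helper82.RD.Defs

/-!
# Project RD (MP_86d903_lc), module ADU: adding an atom keeps UA
-/

set_option autoImplicit false

open Finset MP86d903

namespace Pool.Agent.Helper82.RD

variable {ι V : Type} [DecidableEq ι] [Fintype ι] [Fintype V] [DecidableEq V]
  {vs ng : ι → Finset V} {q : ℕ}

theorem mADU {A J e : Finset V} (hCL : CL vs q A) (hJ : UA vs A J) (he : IsAt vs A e)
    (hne : ∀ c, Disjoint (vs c) J ∨ Disjoint (vs c) e) : UA vs A (J ∪ e) := by
  have hnot : ∀ c, 0 < (vs c \ A).card → ¬ vs c ⊆ A := by
    intro c hc hcA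
    rw [Finset.sdiff_eq_empty_iff_subset.mpr hcA, Finset.card_empty] at hc
    exact absurd hc (lt_irrefl 0)
  refine ⟨?_, ?_, ?_⟩
  · rw [Finset.disjoint_union_left]
    refine ⟨hJ.disj, ?_⟩
    rcases he with ⟨x, hx, rfl, -⟩ | ⟨d, -, rfl⟩
    · exact Finset.disjoint_singleton_left.mpr hx
    · exact Finset.sdiff_disjoint
  · intro c hc
    rcases hJ.pair c hc with h | h
    · exact Or.inl (h.trans Finset.subset_union_left)
    · rcases he with ⟨x, -, rfl, hx⟩ | ⟨d, hd, rfl⟩
      · exact Or.inr (Finset.disjoint_union_right.mpr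
          ⟨h, Finset.disjoint_singleton_right.mpr (hx c hc)⟩)
      · by_cases hcd : c = d
        · rw [hcd]
          exact Or.inl Finset.subset_union_right
        · have h1 := hCL.int c d hcd (hnot c (by omega)) (hnot d (by omega))
          have h2 : ((vs c ∩ vs d) \ A).card = 0 := by omega
          rw [Finset.card_eq_zero] at h2
          refine Or.inr (Finset.disjoint_union_right.mpr ⟨h, ?_⟩)
          rw [Finset.disjoint_left]
          intro y hy hy2
          have h3 : y ∈ (vs c ∩ vs d) \ A := Finset.mem_sdiff.mpr
            ⟨Finset.mem_inter.mpr ⟨hy, (Finset.mem_sdiff.mp hy2).1⟩, (Finset.mem_sdiff.mp hy2).2⟩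
          rw [h2] at h3
          exact absurd h3 (Finset.notMem_empty y)
  · intro c hc
    rw [Finset.inter_union_distrib_left]
    rcases hne c with h | h
    · rw [Finset.disjoint_iff_inter_eq_empty.mp h, Finset.empty_union]
      rcases he with ⟨x, -, rfl, -⟩ | ⟨d, hd, rfl⟩
      · exact (Finset.card_le_card Finset.inter_subset_right).trans (by rw [Finset.card_singleton])
      · have hcd : c ≠ d := by
          intro h0
          rw [h0] at hc
          omega
        have h1 := hCL.int c d hcd (hnot c (by omega)) (hnot d (by omega))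
        have h2 : vs c ∩ (vs d \ A) = (vs c ∩ vs d) \ A := by
          ext y
          simp only [Finset.mem_inter, Finset.mem_sdiff]
          tauto
        rw [h2]
        omega
    · rw [Finset.disjoint_iff_inter_eq_empty.mp h, Finset.union_empty]
      exact hJ.three c hc

end Pool.Agent.Helper82.RD
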